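import Pool.Agent.W485.RL.Stm

/-!
# Project RL, subtask RL-NET: a finite net of the sphere, basic lemmas
-/

set_option autoImplicit false

open MeasureTheory Filter Topology

namespace Pool.Agent.W143.RL

open Pool.Agent.W485.RL

theorem sum_nonneg' {n : ℕ} (z : Fin n → ℂ) : 0 ≤ ∑ i, ‖z i‖ ^ 2 :=
  Finset.sum_nonneg fun _ _ => sq_nonneg _

theorem nz_nonneg {n : ℕ} (z : Fin n → ℂ) : 0 ≤ nz z := Real.sqrt_nonneg _

theorem nz_sq {n : ℕ} (z : Fin n → ℂ) : nz z ^ 2 = ∑ i, ‖z i‖ ^ 2 := Real.sq_sqrt (sum_nonneg' z)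

theorem nz_smul {n : ℕ} (t : ℂ) (z : Fin n → ℂ) : nz (t • z) = ‖t‖ * nz z := by
  unfold nz
  have h : ∑ i, ‖(t • z) i‖ ^ 2 = ‖t‖ ^ 2 * ∑ i, ‖z i‖ ^ 2 := by
    rw [Finset.mul_sum]
    refine Finset.sum_congr rfl fun i _ => ?_
    rw [Pi.smul_apply, norm_smul, mul_pow]
  rw [h, Real.sqrt_mul (sq_nonneg _), Real.sqrt_sq (norm_nonneg _)]

theorem ip_smul {n : ℕ} (w z : Fin n → ℂ) (t : ℂ) : ip w (t • z) = t * ip w z := by
  unfold ip
  rw [Finset.mul_sum]
  refine Finset.sum_congr rfl fun i _ => ?_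
  rw [Pi.smul_apply, smul_eq_mul, mul_assoc]

theorem norm_ip_le {n : ℕ} (w z : Fin n → ℂ) : ‖ip w z‖ ≤ nz w * nz z := by
  unfold ip nz
  refine (norm_sum_le _ _).trans ?_
  have h := Real.sum_mul_le_sqrt_mul_sqrt Finset.univ (fun i => ‖w i‖) (fun i => ‖z i‖)
  refine le_trans (le_of_eq ?_) h
  refine Finset.sum_congr rfl fun i _ => ?_
  rw [norm_mul, RCLike.norm_conj, mul_comm]

theorem ip_self {n : ℕ} (w : Fin n → ℂ) : ip w w = ((nz w ^ 2 : ℝ) : ℂ) := by
  rw [nz_sq]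
  unfold ip
  push_cast
  refine Finset.sum_congr rfl fun i _ => ?_
  rw [Complex.mul_conj, Complex.normSq_eq_norm_sq]
  push_cast
  rfl

theorem continuous_nz {n : ℕ} : Continuous (nz : (Fin n → ℂ) → ℝ) := by
  unfold nz
  refine Real.continuous_sqrt.comp (continuous_finsetSum _ fun i _ => ?_)
  exact (continuous_apply i).norm.pow 2

theorem differentiable_ip {n : ℕ} (w : Fin n → ℂ) : Differentiable ℂ (ip w) := by
  unfold ip
  fun_prop

theorem continuous_ip {n : ℕ} (w : Fin n → ℂ) : Continuous (ip w) :=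
  (differentiable_ip w).continuous

theorem norm_apply_le {n : ℕ} (z : Fin n → ℂ) (i : Fin n) : ‖z i‖ ≤ nz z := by
  unfold nz
  apply Real.le_sqrt_of_sq_le
  exact Finset.single_le_sum (f := fun i => ‖z i‖ ^ 2) (fun _ _ => sq_nonneg _) (Finset.mem_univ i)

theorem isCompact_ball {n : ℕ} (c : ℝ) : IsCompact {z : Fin n → ℂ | nz z ≤ c} := by
  refine Metric.isCompact_of_isClosed_isBounded (isClosed_le continuous_nz continuous_const) ?_
  rw [isBounded_iff_forall_norm_le]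
  refine ⟨max c 0, fun z hz => ?_⟩
  rw [pi_norm_le_iff_of_nonneg (le_max_right _ _)]
  intro i
  exact (norm_apply_le z i).trans (le_trans hz (le_max_left _ _))

theorem isCompact_sphere {n : ℕ} : IsCompact {z : Fin n → ℂ | nz z = 1} := by
  refine (isCompact_ball (n := n) 1).of_isClosed_subset
    (isClosed_eq continuous_nz continuous_const) fun z hz => ?_
  exact le_of_eq hz

theorem nz_single {n : ℕ} (i : Fin n) : nz (Pi.single i 1 : Fin n → ℂ) = 1 := by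
  unfold nz
  rw [Finset.sum_eq_single i]
  · simp
  · intro j _ hj
    rw [Pi.single_eq_of_ne hj]
    simp
  · intro h
    exact absurd (Finset.mem_univ i) h

/-- RL-NET. -/
theorem t_Net (n : ℕ) (hn : 0 < n) : SNet n := by
  intro c hc
  have hU : ∀ w ∈ {z : Fin n → ℂ | nz z = 1}, {z : Fin n → ℂ | c < ‖ip w z‖} ∈ 𝓝 w := by
    intro w hw
    refine (isOpen_lt continuous_const (continuous_ip w).norm).mem_nhds ?_
    show c < ‖ip w w‖
    have hw' : nz w = 1 := hw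
    rw [ip_self, hw']
    simpa using hc
  obtain ⟨Z, hZ, hcov⟩ := (isCompact_sphere (n := n)).elim_nhds_subcover _ hU
  have hfind : ∀ z : Fin n → ℂ, nz z = 1 → ∃ w ∈ Z, c < ‖ip w z‖ := by
    intro z hz
    have h := hcov hz
    simp only [Set.mem_iUnion, Set.mem_setOf_eq, exists_prop] at h
    exact h
  refine ⟨Z, fun w hw => hZ w hw, fun z => ?_⟩
  by_cases hz : nz z = 0
  · obtain ⟨w, hw, _⟩ := hfind _ (nz_single ⟨0, hn⟩)
    refine ⟨w, hw, ?_⟩
    rw [hz, mul_zero]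
    exact norm_nonneg _
  · have hz0 : 0 < nz z := lt_of_le_of_ne (nz_nonneg z) (Ne.symm hz)
    have hn1 : ‖(((nz z)⁻¹ : ℝ) : ℂ)‖ = (nz z)⁻¹ := by
      rw [Complex.norm_real, Real.norm_eq_abs, abs_of_pos (inv_pos.2 hz0)]
    have h1 : nz ((((nz z)⁻¹ : ℝ) : ℂ) • z) = 1 := by
      rw [nz_smul, hn1, inv_mul_cancel₀ hz]
    obtain ⟨w, hw, h2⟩ := hfind _ h1
    refine ⟨w, hw, ?_⟩
    rw [ip_smul, norm_mul, hn1] at h2
    have h3 : c * nz z < (nz z)⁻¹ * ‖ip w z‖ * nz z := mul_lt_mul_of_pos_right h2 hz0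
    have h4 : (nz z)⁻¹ * ‖ip w z‖ * nz z = ‖ip w z‖ := by
      field_simp
    rw [h4] at h3
    exact h3.le

end Pool.Agent.W143.RL
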